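import Mathlib

/-!
# MP_fdcb14_pr: noisy majority votings (windroses), definitions
-/

namespace Pool.Agent.Lib.MP_fdcb14_pr

/-- What the noise does to a site at one time step: keep the majority value, replace it by `0`,
or replace it by `1`. -/
inductive Err
  | keep
  | zero
  | one
deriving DecidableEq

instance : Fintype Err := ⟨{Err.keep, Err.zero, Err.one}, by intro x; cases x <;> simp⟩

instance : MeasurableSpace Err := ⊤

/-! ## The process as it is stated in the problem -/

/-- The sites of the lattice `ℤ^d`. -/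
abbrev Site (d : ℕ) := Fin d → ℤ

/-- The majority value of the configuration `x` on the sites `v + s`, `s ∈ S`
(true = the value 1). -/
def maj {d : ℕ} (S : Finset (Site d)) (x : Site d → Bool) (v : Site d) : Bool :=
  decide (S.card < 2 * (S.filter (fun s => x (v + s) = true)).card)

/-- The effect of the noise on a majority value. -/
def noisy (e : Err) (b : Bool) : Bool :=
  match e with
  | Err.keep => b
  | Err.zero => false
  | Err.one => true

/-- The trajectory of the random voting started from `x0`, driven by the noise `ξ`: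
`ξ t v` is the noise used at the site `v` when the configuration at time `t + 1` is formed. -/
def traj {d : ℕ} (S : Finset (Site d)) (ξ : ℕ → Site d → Err) (x0 : Site d → Bool) :
    ℕ → Site d → Bool
  | 0 => x0
  | t + 1 => fun v => noisy (ξ t v) (maj S (traj S ξ x0 t) v)

open MeasureTheory ProbabilityTheory in
/-- `ξ` is a field of independent noise variables; each replaces the majority value by `1` with
probability `ε`, by `0` with probability `ε`, and keeps it otherwise. -/
structure IsNoise {G : Type*} {Ω : Type*} [MeasurableSpace Ω] (μ : Measure Ω)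
    (ξ : ℕ → G → Ω → Err) (ε : ℝ) : Prop where
  meas : ∀ t v, Measurable (ξ t v)
  indep : iIndepFun (fun p : ℕ × G => ξ p.1 p.2) μ
  one : ∀ t v, μ {ω | ξ t v ω = Err.one} = ENNReal.ofReal ε
  zero : ∀ t v, μ {ω | ξ t v ω = Err.zero} = ENNReal.ofReal ε

/-! ## The set formulation in an additive group -/

section det

variable {G : Type*} [AddCommGroup G]

open Classical in
/-- The number of neighbours of `v` that lie in `X`. -/
noncomputable def cnt (S : Finset G) (X : Set G) (v : G) : ℕ :=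
  (S.filter (fun s => v + s ∈ X)).card

/-- The sites where the noise writes a `1`. -/
def ones (η : G → Err) : Set G := {w | η w = Err.one}

/-- The sites that are `1` after the noise `η` has acted on the set of outputs `Y`. -/
def act (η : G → Err) (Y : Set G) : Set G := {w | η w = Err.one ∨ (w ∈ Y ∧ η w ≠ Err.zero)}

/-- The next set of outputs; outputs outside `B` are set to `0`. -/
def nxt (S : Finset G) (k : ℕ) (B : Set G) (η : G → Err) (Y : Set G) : Set G :=
  {v | v ∈ B ∧ k + 1 ≤ cnt S (act η Y) v}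

/-- The evolution of the set of outputs. -/
def evo (S : Finset G) (k : ℕ) (B : Set G) (ξ : ℕ → G → Err) (Y0 : Set G) : ℕ → Set G
  | 0 => Y0
  | t + 1 => nxt S k B (ξ t) (evo S k B ξ Y0 t)

/-- A seed: a site that sees at least two ones of the noise. -/
def Seed (S : Finset G) (η : G → Err) (v : G) : Prop := 2 ≤ cnt S (ones η) v

/-- Robust sets: a site outside sees at most `k - 1` sites of the set. -/
def Robust (S : Finset G) (k : ℕ) (D : Set G) : Prop := ∀ v, v ∉ D → cnt S D v + 1 ≤ k

/-- `η' ≤ η`: fewer ones, more zeros. -/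
def Le (η' η : G → Err) : Prop :=
  (∀ w, η' w = Err.one → η w = Err.one) ∧ (∀ w, η w = Err.zero → η' w = Err.zero)

/-- A symmetric neighbourhood of odd cardinality `2k+1`. -/
structure Wind (S : Finset G) (k : ℕ) : Prop where
  symm : ∀ s ∈ S, -s ∈ S
  card : S.card = 2 * k + 1

/-- The functionals that define the boxes. -/
structure Funs {ι : Type} [Fintype ι] (S : Finset G) (ψ : ι → G →+ ℤ) (ρ : ℕ) : Prop where
  ker : ∀ i, ∃ s ∈ S, s ≠ 0 ∧ ψ i s = 0
  bd : ∀ s ∈ S, ∀ i, |ψ i s| ≤ ρ
  inj : ∀ v, (∀ i, ψ i v = 0) → v = 0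
  pos : 1 ≤ ρ

/-- Boxes. -/
def box {ι : Type} (ψ : ι → G →+ ℤ) (lo hi : ι → ℤ) : Set G :=
  {v | ∀ i, lo i ≤ ψ i v ∧ ψ i v ≤ hi i}

/-- Balls. -/
def ball {ι : Type} (ψ : ι → G →+ ℤ) (u : G) (R : ℕ) : Set G :=
  {v | ∀ i, |ψ i v - ψ i u| ≤ R}

end det

/-- The run of a machine `f` driven by the noise `ξ`. -/
def run {G X : Type*} (f : X → (G → Err) → X) (x0 : X) (ξ : ℕ → G → Err) : ℕ → X
  | 0 => x0
  | t + 1 => f (run f x0 ξ t) (ξ t)

/-! ## Ideals on a line -/

/-- Ideals: nonempty proper sets `D ⊆ ℤ` with `D - j ⊆ D` for `j ∈ J`. -/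
def IsId (J : Finset ℕ) (D : Set ℤ) : Prop :=
  (∃ i, i ∈ D) ∧ (∃ i, i ∉ D) ∧ ∀ i ∈ D, ∀ j ∈ J, i - (j : ℤ) ∈ D

/-- Minimal elements of the complement. -/
def MinC (J : Finset ℕ) (D : Set ℤ) : Set ℤ := {i | i ∉ D ∧ ∀ j ∈ J, i - (j : ℤ) ∈ D}

/-- Maximal elements. -/
def MaxC (J : Finset ℕ) (D : Set ℤ) : Set ℤ := {i | i ∈ D ∧ ∀ j ∈ J, i + (j : ℤ) ∉ D}

/-- The signed size of an ideal. -/
noncomputable def NN (D : Set ℤ) : ℤ := ((D ∩ Set.Ioi 0).ncard : ℤ) - ((Set.Iic 0 \ D).ncard : ℤ)

/-- The region of ones of a line: a half space and the sites `i • g`, `i ∈ D`. -/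
def HH {G : Type*} [AddCommGroup G] (φ : G →+ ℤ) (g : G) (D : Set ℤ) : Set G :=
  {w | φ w < 0 ∨ ∃ i ∈ D, w = i • g}

/-- The effect of a single `1` of the noise at `w`. -/
def Tp {G : Type*} [AddCommGroup G] (S : Finset G) (φ : G →+ ℤ) (g : G) (J : Finset ℕ) (w : G)
    (D : Set ℤ) : Set ℤ := {i | i ∈ D ∨ (w ∉ HH φ g D ∧ i ∈ MinC J D ∧ w - i • g ∈ S)}

/-- The effect of a single `0` of the noise at `w`. -/
def Tm {G : Type*} [AddCommGroup G] (S : Finset G) (φ : G →+ ℤ) (g : G) (J : Finset ℕ) (w : G)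
    (D : Set ℤ) : Set ℤ := {i | i ∈ D ∧ ¬ (w ∈ HH φ g D ∧ i ∈ MaxC J D ∧ w - i • g ∈ S)}

/-- The zone of an ideal. -/
def Zone {G : Type*} [AddCommGroup G] (S : Finset G) (g : G) (J : Finset ℕ) (D : Set ℤ) : Set G :=
  {w | ∃ i, (i ∈ MinC J D ∨ i ∈ MaxC J D) ∧ w - i • g ∈ S}

/-- The generator of the dynamics of single errors. -/
noncomputable def LL {G : Type*} [AddCommGroup G] (S : Finset G) (φ : G →+ ℤ) (g : G)
    (J : Finset ℕ) (f : Set ℤ → ℝ) (D : Set ℤ) : ℝ :=
  ∑ᶠ w : G, ((f (Tp S φ g J w D) - f D) + (f (Tm S φ g J w D) - f D))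

/-! ## Finite expectations -/

/-- The weight of a noise symbol. -/
noncomputable def pr (ε : ℝ) : Err → ℝ
  | Err.keep => 1 - 2 * ε
  | Err.zero => ε
  | Err.one => ε

open Classical in
/-- Extension of a noise configuration on the finite set `Z` by `keep`. -/
noncomputable def ext {G : Type*} (Z : Finset G) (e : Z → Err) : G → Err :=
  fun w => if h : w ∈ Z then e ⟨w, h⟩ else Err.keep

open Classical in
/-- The expectation of `f` over the noise on the finite set `Z`. -/
noncomputable def Ex {G : Type*} (ε : ℝ) (Z : Finset G) (f : (G → Err) → ℝ) : ℝ :=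
  ∑ e : (Z → Err), (∏ v : Z, pr ε (e v)) * f (ext Z e)

end Pool.Agent.Lib.MP_fdcb14_pr
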