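import Mathlib
import Pool.Agent.Lib.MP_fdcb14_pr.W.Defs

/-!
# MP_fdcb14_pr: basic lemmas on counts, robust sets, boxes and the evolution
-/

namespace Pool.Agent.Lib.MP_fdcb14_pr

open Classical

variable {G : Type*} [AddCommGroup G]

theorem cnt_mono (S : Finset G) {X Y : Set G} (h : X ⊆ Y) (v : G) : cnt S X v ≤ cnt S Y v := by
  unfold cnt
  apply Finset.card_le_card
  intro s hs
  rw [Finset.mem_filter] at hs ⊢
  exact ⟨hs.1, h hs.2⟩

/-- Monotonicity needs only the sites that are seen. -/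
theorem cnt_mono' (S : Finset G) {X Y : Set G} (v : G) (h : ∀ s ∈ S, v + s ∈ X → v + s ∈ Y) :
    cnt S X v ≤ cnt S Y v := by
  unfold cnt
  apply Finset.card_le_card
  intro s hs
  rw [Finset.mem_filter] at hs ⊢
  exact ⟨hs.1, h s hs.1 hs.2⟩

theorem cnt_congr (S : Finset G) {X Y : Set G} (v : G) (h : ∀ s ∈ S, (v + s ∈ X ↔ v + s ∈ Y)) :
    cnt S X v = cnt S Y v :=
  le_antisymm (cnt_mono' S v (fun s hs => (h s hs).1)) (cnt_mono' S v (fun s hs => (h s hs).2))

theorem cnt_union_le (S : Finset G) (X Y : Set G) (v : G) :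
    cnt S (X ∪ Y) v ≤ cnt S X v + cnt S Y v := by
  unfold cnt
  refine le_trans (Finset.card_le_card ?_) (Finset.card_union_le _ _)
  intro s hs
  simp only [Finset.mem_filter, Set.mem_union, Finset.mem_union] at hs ⊢
  tauto

theorem cnt_le_card (S : Finset G) (X : Set G) (v : G) : cnt S X v ≤ S.card := by
  unfold cnt
  exact Finset.card_filter_le _ _

/-- Splitting a count. -/
theorem cnt_split (S : Finset G) (X Y : Set G) (v : G) :
    cnt S X v = cnt S (X ∩ Y) v + cnt S (X \ Y) v := by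
  unfold cnt
  rw [← Finset.card_union_of_disjoint]
  · congr 1
    ext s
    simp only [Finset.mem_filter, Finset.mem_union, Set.mem_inter_iff, Set.mem_sdiff]
    tauto
  · rw [Finset.disjoint_left]
    intro s h1 h2
    simp only [Finset.mem_filter, Set.mem_inter_iff, Set.mem_sdiff] at h1 h2
    exact h2.2.2 h1.2.2

/-- Translation of counts. -/
theorem cnt_shift (S : Finset G) (X : Set G) (z v : G) :
    cnt S {w | z + w ∈ X} v = cnt S X (z + v) := by
  unfold cnt
  congr 1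
  ext s
  simp only [Finset.mem_filter, Set.mem_ofPred_eq, add_assoc]

theorem act_mono {η η' : G → Err} (h : Le η' η) {Y Y' : Set G} (hY : Y' ⊆ Y) :
    act η' Y' ⊆ act η Y := by
  intro w hw
  rcases hw with h1 | ⟨h1, h2⟩
  · exact Or.inl (h.1 w h1)
  · exact Or.inr ⟨hY h1, fun h3 => h2 (h.2 w h3)⟩

theorem act_subset (η : G → Err) (Y : Set G) : act η Y ⊆ Y ∪ ones η := by
  intro w hw
  rcases hw with h1 | ⟨h1, _⟩
  · exact Or.inr h1
  · exact Or.inl h1

theorem Le.refl (η : G → Err) : Le η η := ⟨fun _ h => h, fun _ h => h⟩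

theorem nxt_mono {S : Finset G} {k : ℕ} {B B' : Set G} {η η' : G → Err} (h : Le η' η)
    (hB : B' ⊆ B) {Y Y' : Set G} (hY : Y' ⊆ Y) : nxt S k B' η' Y' ⊆ nxt S k B η Y := by
  intro v hv
  exact ⟨hB hv.1, le_trans hv.2 (cnt_mono S (act_mono h hY) v)⟩

theorem nxt_subset (S : Finset G) (k : ℕ) (B : Set G) (η : G → Err) (Y : Set G) :
    nxt S k B η Y ⊆ B := fun _ hv => hv.1

theorem evo_mono {S : Finset G} {k : ℕ} {B B' : Set G} {ξ ξ' : ℕ → G → Err}
    (h : ∀ t, Le (ξ' t) (ξ t)) (hB : B' ⊆ B) {Y Y' : Set G} (hY : Y' ⊆ Y) (t : ℕ) :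
    evo S k B' ξ' Y' t ⊆ evo S k B ξ Y t := by
  induction t with
  | zero => exact hY
  | succ t ih => exact nxt_mono (h t) hB ih

theorem evo_succ (S : Finset G) (k : ℕ) (B : Set G) (ξ : ℕ → G → Err) (Y : Set G) (t : ℕ) :
    evo S k B ξ Y (t + 1) = nxt S k B (ξ t) (evo S k B ξ Y t) := rfl

/-- Restart of the evolution. -/
theorem evo_add (S : Finset G) (k : ℕ) (B : Set G) (ξ : ℕ → G → Err) (Y : Set G) (s t : ℕ) :
    evo S k B ξ Y (s + t) = evo S k B (fun i => ξ (s + i)) (evo S k B ξ Y s) t := by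
  induction t with
  | zero => rfl
  | succ t ih =>
    rw [← Nat.add_assoc, evo_succ, evo_succ, ih]

/-- `(R0)`: outputs inside a robust set stay there, up to seeds. -/
theorem nxt_subset_of_robust {S : Finset G} {k : ℕ} {D : Set G} (hD : Robust S k D) (B : Set G)
    (η : G → Err) {Y : Set G} (hY : Y ⊆ D) {v : G} (hv : v ∈ nxt S k B η Y) :
    v ∈ D ∨ Seed S η v := by
  by_contra hcon
  rw [not_or] at hcon
  obtain ⟨h1, h2⟩ := hcon
  have h3 := hD v h1
  have h4 : cnt S (ones η) v < 2 := Nat.lt_of_not_le h2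
  have h5 : cnt S (act η Y) v ≤ cnt S Y v + cnt S (ones η) v :=
    le_trans (cnt_mono S (act_subset η Y) v) (cnt_union_le S Y (ones η) v)
  have h6 := cnt_mono S hY v
  have h7 := hv.2
  omega

theorem robust_inter {S : Finset G} {k : ℕ} {D E : Set G} (hD : Robust S k D)
    (hE : Robust S k E) : Robust S k (D ∩ E) := by
  intro v hv
  by_cases h : v ∈ D
  · have h2 : v ∉ E := fun h3 => hv ⟨h, h3⟩
    exact le_trans (Nat.succ_le_succ (cnt_mono S Set.inter_subset_right v)) (hE v h2)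
  · exact le_trans (Nat.succ_le_succ (cnt_mono S Set.inter_subset_left v)) (hD v h)

theorem robust_iInter {S : Finset G} {k : ℕ} {ι : Type*} {D : ι → Set G}
    (hD : ∀ i, Robust S k (D i)) : Robust S k (⋂ i, D i) := by
  intro v hv
  rw [Set.mem_iInter, not_forall] at hv
  obtain ⟨i, hi⟩ := hv
  exact le_trans (Nat.succ_le_succ (cnt_mono S (Set.iInter_subset D i) v)) (hD i v hi)

theorem card_neg_eq_card_pos {S : Finset G} (hs : ∀ s ∈ S, -s ∈ S) (φ : G →+ ℤ) :
    (S.filter (fun s => φ s < 0)).card = (S.filter (fun s => 0 < φ s)).card := by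
  apply Finset.card_bij (fun s _ => -s)
  · intro s h
    rw [Finset.mem_filter] at h ⊢
    refine ⟨hs s h.1, ?_⟩
    rw [map_neg]
    linarith [h.2]
  · intro s _ s' _ h
    exact neg_injective h
  · intro s h
    rw [Finset.mem_filter] at h
    refine ⟨-s, ?_, neg_neg s⟩
    rw [Finset.mem_filter, map_neg]
    exact ⟨hs s h.1, by linarith [h.2]⟩

theorem card_split {S : Finset G} (hs : ∀ s ∈ S, -s ∈ S) (φ : G →+ ℤ) :
    S.card = 2 * (S.filter (fun s => φ s < 0)).card + (S.filter (fun s => φ s = 0)).card := by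
  have h1 : S.card = (S.filter (fun s => φ s < 0)).card +
      (S.filter (fun s => ¬ φ s < 0)).card := (Finset.card_filter_add_card_filter_not _).symm
  have h2 : (S.filter (fun s => ¬ φ s < 0)).card =
      ((S.filter (fun s => ¬ φ s < 0)).filter (fun s => 0 < φ s)).card +
      ((S.filter (fun s => ¬ φ s < 0)).filter (fun s => ¬ 0 < φ s)).card :=
    (Finset.card_filter_add_card_filter_not _).symm
  have h3 : (S.filter (fun s => ¬ φ s < 0)).filter (fun s => 0 < φ s) =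
      S.filter (fun s => 0 < φ s) := by
    ext s
    simp only [Finset.mem_filter]
    constructor
    · rintro ⟨⟨a, _⟩, c⟩; exact ⟨a, c⟩
    · rintro ⟨a, c⟩; exact ⟨⟨a, by omega⟩, c⟩
  have h4 : (S.filter (fun s => ¬ φ s < 0)).filter (fun s => ¬ 0 < φ s) =
      S.filter (fun s => φ s = 0) := by
    ext s
    simp only [Finset.mem_filter]
    constructor
    · rintro ⟨⟨a, b⟩, c⟩; exact ⟨a, by omega⟩
    · rintro ⟨a, c⟩; exact ⟨⟨a, by omega⟩, by omega⟩
  rw [h3, h4] at h2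
  have h5 := card_neg_eq_card_pos hs φ
  omega

/-- `0 ∈ S` for a symmetric set of odd cardinality. -/
theorem Wind.zero_mem {S : Finset G} {k : ℕ} (hS : Wind S k)
    (hfree : ∀ s ∈ S, s = -s → s = 0) : (0 : G) ∈ S := by
  by_contra h0
  have h1 : ∑ s ∈ S, (1 : ZMod 2) = 0 := by
    apply Finset.sum_involution (fun s _ => -s)
    · intro s _
      decide
    · intro s hs _ heq
      have : s = 0 := hfree s hs heq.symm
      exact h0 (this ▸ hs)
    · intro s _
      exact neg_neg s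
    · intro s hs
      exact hS.symm s hs
  rw [Finset.sum_const, nsmul_eq_mul, mul_one, hS.card] at h1
  have h2 : ((2 * k + 1 : ℕ) : ZMod 2) = 1 := by
    push_cast
    have : (2 : ZMod 2) = 0 := by decide
    rw [this]
    ring
  rw [h2] at h1
  exact absurd h1 (by decide)

/-- `0 ∈ S` if the functionals separate points. -/
theorem Funs.zero_mem {ι : Type} [Fintype ι] {S : Finset G} {k : ℕ} {ψ : ι → G →+ ℤ} {ρ : ℕ}
    (hS : Wind S k) (hF : Funs S ψ ρ) : (0 : G) ∈ S := by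
  apply hS.zero_mem
  intro s _ hs
  apply hF.inj
  intro i
  have h : ψ i s = - ψ i s := by
    conv_lhs => rw [hs]
    rw [map_neg]
  omega

/-- No nonzero torsion of order two if the functionals separate points. -/
theorem Funs.ne_neg {ι : Type} [Fintype ι] {S : Finset G} {ψ : ι → G →+ ℤ} {ρ : ℕ}
    (hF : Funs S ψ ρ) {s : G} (hs : s ≠ 0) : s ≠ -s := by
  intro h
  apply hs
  apply hF.inj
  intro i
  have h : ψ i s = - ψ i s := by
    conv_lhs => rw [h]
    rw [map_neg]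
  omega

/-- Three elements in the kernel. -/
theorem three_le_card_ker {S : Finset G} (hs : ∀ s ∈ S, -s ∈ S) (h0 : (0 : G) ∈ S) (φ : G →+ ℤ)
    {s : G} (hsS : s ∈ S) (hs0 : s ≠ 0) (hsn : s ≠ -s) (hφ : φ s = 0) :
    3 ≤ (S.filter (fun s => φ s = 0)).card := by
  have h1 : ({0, s, -s} : Finset G) ⊆ S.filter (fun s => φ s = 0) := by
    intro x hx
    simp only [Finset.mem_insert, Finset.mem_singleton] at hx
    rw [Finset.mem_filter]
    rcases hx with rfl | rfl | rfl
    · exact ⟨h0, map_zero φ⟩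
    · exact ⟨hsS, hφ⟩
    · exact ⟨hs s hsS, by rw [map_neg, hφ, neg_zero]⟩
  have h2 : ({0, s, -s} : Finset G).card = 3 := by
    rw [Finset.card_eq_three]
    exact ⟨0, s, -s, fun h => hs0 h.symm, fun h => hs0 (neg_eq_zero.mp h.symm), hsn, rfl⟩
  rw [← h2]
  exact Finset.card_le_card h1

/-- At most `k - 1` neighbours on the negative side. -/
theorem card_neg_le {S : Finset G} {k : ℕ} (hS : Wind S k) (φ : G →+ ℤ)
    (h0 : (3 : ℕ) ≤ (S.filter (fun s => φ s = 0)).card) :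
    (S.filter (fun s => φ s < 0)).card + 1 ≤ k := by
  have h1 := card_split hS.symm φ
  rw [hS.card] at h1
  omega

theorem card_neg_lt {ι : Type} [Fintype ι] {S : Finset G} {k : ℕ} {ψ : ι → G →+ ℤ} {ρ : ℕ}
    (hS : Wind S k) (hF : Funs S ψ ρ) (φ : G →+ ℤ) (h : ∃ s ∈ S, s ≠ 0 ∧ φ s = 0) :
    (S.filter (fun s => φ s < 0)).card + 1 ≤ k := by
  obtain ⟨s, h1, h2, h3⟩ := h
  exact card_neg_le hS φ (three_le_card_ker hS.symm (hF.zero_mem hS) φ h1 h2 (hF.ne_neg h2) h3)

/-- `(R1)`: half spaces are robust. -/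
theorem robust_le {ι : Type} [Fintype ι] {S : Finset G} {k : ℕ} {ψ : ι → G →+ ℤ} {ρ : ℕ}
    (hS : Wind S k) (hF : Funs S ψ ρ) (φ : G →+ ℤ) (h : ∃ s ∈ S, s ≠ 0 ∧ φ s = 0) (c : ℤ) :
    Robust S k {v | φ v ≤ c} := by
  intro v hv
  refine le_trans (Nat.succ_le_succ (Finset.card_le_card ?_)) (card_neg_lt hS hF φ h)
  intro s hs
  simp only [Finset.mem_filter] at hs ⊢
  refine ⟨hs.1, ?_⟩
  have h1 : φ (v + s) ≤ c := hs.2
  have h2 : ¬ φ v ≤ c := hv
  rw [map_add] at h1
  omega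

theorem robust_ge {ι : Type} [Fintype ι] {S : Finset G} {k : ℕ} {ψ : ι → G →+ ℤ} {ρ : ℕ}
    (hS : Wind S k) (hF : Funs S ψ ρ) (φ : G →+ ℤ) (h : ∃ s ∈ S, s ≠ 0 ∧ φ s = 0) (c : ℤ) :
    Robust S k {v | c ≤ φ v} := by
  have h1 := robust_le hS hF (-φ) (by
    obtain ⟨s, h1, h2, h3⟩ := h
    exact ⟨s, h1, h2, by rw [AddMonoidHom.neg_apply, h3, neg_zero]⟩) (-c)
  have h2 : {v | c ≤ φ v} = {v | (-φ) v ≤ -c} := by
    ext v
    simp only [Set.mem_ofPred_eq, AddMonoidHom.neg_apply, neg_le_neg_iff]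
  rw [h2]
  exact h1

/-- Boxes are robust. -/
theorem robust_box {ι : Type} [Fintype ι] {S : Finset G} {k : ℕ} {ψ : ι → G →+ ℤ} {ρ : ℕ}
    (hS : Wind S k) (hF : Funs S ψ ρ) (lo hi : ι → ℤ) : Robust S k (box ψ lo hi) := by
  have h1 : box ψ lo hi = ⋂ i, ({v | lo i ≤ ψ i v} ∩ {v | ψ i v ≤ hi i}) := by
    ext v
    simp only [box, Set.mem_ofPred_eq, Set.mem_iInter, Set.mem_inter_iff]
  rw [h1]
  apply robust_iInter
  intro i
  exact robust_inter (robust_ge hS hF (ψ i) (hF.ker i) _) (robust_le hS hF (ψ i) (hF.ker i) _)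

theorem ball_eq_box {ι : Type} (ψ : ι → G →+ ℤ) (u : G) (R : ℕ) :
    ball ψ u R = box ψ (fun i => ψ i u - R) (fun i => ψ i u + R) := by
  ext v
  simp only [ball, box, Set.mem_ofPred_eq, abs_le]
  constructor
  · intro h i
    have := h i
    constructor <;> omega
  · intro h i
    have := h i
    constructor <;> omega

theorem robust_ball {ι : Type} [Fintype ι] {S : Finset G} {k : ℕ} {ψ : ι → G →+ ℤ} {ρ : ℕ}
    (hS : Wind S k) (hF : Funs S ψ ρ) (u : G) (R : ℕ) : Robust S k (ball ψ u R) := by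
  rw [ball_eq_box]
  exact robust_box hS hF _ _

/-- `(R3)`: a union of robust sets, any two of which are never seen by a common site. -/
theorem robust_sUnion {S : Finset G} {k : ℕ} (hk : 1 ≤ k) (F : Set (Set G))
    (hF : ∀ B ∈ F, Robust S k B)
    (hsep : ∀ B ∈ F, ∀ B' ∈ F, B ≠ B' → ∀ v, ∀ s ∈ S, ∀ s' ∈ S, v + s ∈ B → v + s' ∉ B') :
    Robust S k (⋃₀ F) := by
  intro v hv
  by_cases h : ∃ s ∈ S, v + s ∈ ⋃₀ F
  · obtain ⟨s, hs, B, hB, hsB⟩ := h
    have h1 : cnt S (⋃₀ F) v ≤ cnt S B v := by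
      apply cnt_mono'
      intro s' hs' h2
      obtain ⟨B', hB', h3⟩ := h2
      by_cases h4 : B = B'
      · rw [h4]; exact h3
      · exact absurd h3 (hsep B hB B' hB' h4 v s hs s' hs' hsB)
    have h5 : v ∉ B := fun h6 => hv ⟨B, hB, h6⟩
    exact le_trans (Nat.succ_le_succ h1) (hF B hB v h5)
  · have h1 : cnt S (⋃₀ F) v = 0 := by
      unfold cnt
      rw [Finset.card_eq_zero, Finset.filter_eq_empty_iff]
      intro s hs h2
      exact h ⟨s, hs, h2⟩
    omega

end Pool.Agent.Lib.MP_fdcb14_pr
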