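import Mathlib
import Pool.Agent.Lib.MP_fdcb14_pr.W.Defs

/-!
# MP_fdcb14_pr: interfaces of the modules (see Paper.md in this folder)
-/

namespace Pool.Agent.Lib.MP_fdcb14_pr

open MeasureTheory ProbabilityTheory

/-- The data of the line lemma: `J` is the set of positive steps of `S` on the line `ℤ g`. -/
structure LineData {G : Type} [AddCommGroup G] (S : Finset G) (φ : G →+ ℤ) (g : G)
    (J : Finset ℕ) : Prop where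
  phig : φ g = 0
  free : ∀ j : ℤ, j • g = 0 → j = 0
  pos : ∀ j ∈ J, 1 ≤ j
  ne : J.Nonempty
  gcd : J.gcd id = 1
  mem : ∀ j ∈ J, (j : ℤ) • g ∈ S
  ker : ∀ s ∈ S, φ s = 0 → ∃ j : ℤ, s = j • g ∧ (j = 0 ∨ j.natAbs ∈ J)

/-- The state machine of the line lemma for a line segment of length `m`. -/
def LineMachine {G : Type} [AddCommGroup G] (S : Finset G) (k : ℕ) (φ : G →+ ℤ) (g : G)
    (K m : ℕ) : Prop :=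
  ∃ (upd : Set ℤ → (G → Err) → Set ℤ) (Gf : Set ℤ → ℝ) (Z : Finset G),
    (∀ D η η', (∀ w ∈ Z, η w = η' w) → upd D η = upd D η') ∧
    (∀ (D : Set ℤ) (η η' : G → Err) (Y : Set G), Le η' η →
      (∀ (i : ℤ), ∀ s ∈ S, i • g + s ∈ Y → (φ s < 0 ∨ ∃ i' ∈ D, i • g + s = i' • g)) →
      ∀ i : ℤ, i ≤ 0 → cnt S (ones η') (i • g) ≤ 1 → k + 1 ≤ cnt S (act η' Y) (i • g) →
        i ∈ upd D η) ∧
    (∀ D, 0 ≤ Gf D ∧ Gf D ≤ K * (m : ℝ) ^ 2) ∧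
    (∀ ε : ℝ, 0 < ε → K * (m : ℝ) ^ 2 * ε ≤ 1 → ∀ D : Set ℤ, (¬ ∀ i ∈ D, i ≤ -(m : ℤ)) →
      Ex ε Z (fun η => Gf (upd D η)) ≤ Gf D - ε / K)

/-- IDEAL: facts about ideals and single errors. -/
def IDEAL_S : Prop :=
  ∀ (G : Type) [AddCommGroup G] (S : Finset G) (k : ℕ) (φ : G →+ ℤ) (g : G) (J : Finset ℕ),
    Wind S k → LineData S φ g J →
    (∀ D w, IsId J D → IsId J (Tp S φ g J w D) ∧ IsId J (Tm S φ g J w D)) ∧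
    (∀ D w, w ∉ Zone S g J D → Tp S φ g J w D = D ∧ Tm S φ g J w D = D) ∧
    ∃ F : ℕ, ∀ D, IsId J D →
      (Zone S g J D).Finite ∧ (Zone S g J D).ncard ≤ F ∧
      ∃ a : ℤ, (∀ i ≤ a, i ∈ D) ∧ a + 1 ∉ D ∧ (∀ i ∈ D, i ≤ a + F) ∧ a ≤ NN D ∧
        NN D ≤ a + F ∧ (∀ i, (i ∈ MinC J D ∨ i ∈ MaxC J D) → |i - a| ≤ F) ∧
        ∀ w, |NN (Tp S φ g J w D) - NN D| ≤ F ∧ |NN (Tm S φ g J w D) - NN D| ≤ F

/-- CORR: the corrector functions. -/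
def CORR_S : Prop :=
  ∀ (G : Type) [AddCommGroup G] (S : Finset G) (k : ℕ) (φ : G →+ ℤ) (g : G) (J : Finset ℕ),
    Wind S k → LineData S φ g J →
    ∃ (h q : Set ℤ → ℝ) (C lam : ℝ), 0 < lam ∧ ∀ D, IsId J D →
      |h D - NN D| ≤ C ∧ |q D| ≤ C ∧ LL S φ g J h D = 0 ∧
      LL S φ g J (fun D => h D ^ 2 + q D) D = lam

/-- LINE (section 4 of Paper.md). -/
def LINE_S : Prop :=
  ∀ (G : Type) [AddCommGroup G] (S : Finset G) (k : ℕ) (φ : G →+ ℤ) (g : G) (J : Finset ℕ),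
    Wind S k → LineData S φ g J → ∃ K : ℕ, 1 ≤ K ∧ ∀ m : ℕ, 1 ≤ m → LineMachine S k φ g K m

/-- POISSON: the Poisson equation of a finite Markov generator. -/
def POISSON_S : Prop :=
  ∀ (X : Type) [Fintype X] (r : X → X → ℝ) (x0 : X), (∀ x y, 0 ≤ r x y) →
    (∀ x, Relation.ReflTransGen (fun x y => 0 < r x y) x x0) →
    ∀ f : X → ℝ, ∃ (u : X → ℝ) (lam : ℝ),
      (∀ x, ∑ y, r x y * (u y - u x) = -(f x - lam)) ∧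
      (∀ (u' : X → ℝ) (lam' : ℝ), (∀ x, ∑ y, r x y * (u' y - u' x) = -(f x - lam')) →
        lam' = lam) ∧
      ((∀ x, 0 ≤ f x) → 0 < f x0 → 0 < lam)

/-- PHIG: existence of the line data in `ℤ^d`. -/
def PHIG_S : Prop :=
  ∀ (d : ℕ) (S : Finset (Site d)) (k : ℕ), Wind S k → (∃ s ∈ S, s ≠ 0) →
    ∃ (φ : Site d →+ ℤ) (g : Site d) (J : Finset ℕ), LineData S φ g J

/-- FUNS: existence of the functionals. -/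
def FUNS_S : Prop :=
  ∀ (d : ℕ) (S : Finset (Site d)) (k : ℕ), Wind S k →
    ¬ Collinear ℝ {x : Fin d → ℝ | ∃ s ∈ S, x = fun i => (s i : ℝ)} →
    ∃ (ι : Type) (_ : Fintype ι) (_ : Nonempty ι) (ψ : ι → Site d →+ ℤ) (ρ : ℕ), Funs S ψ ρ

/-- COLOR: a finite colouring such that two sites of one colour never see a common site. -/
def COLOR_S : Prop :=
  ∀ (d : ℕ) (S : Finset (Site d)), ∃ (C : ℕ) (c : Site d → Fin C), 1 ≤ C ∧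
    ∀ v v', c v = c v' → v ≠ v' → ∀ s ∈ S, ∀ s' ∈ S, v + s ≠ v' + s'

/-- GLOBAL (section 1 of Paper.md). -/
def GLOBAL_S : Prop :=
  ∀ (G : Type) [AddCommGroup G] (ι : Type) [Fintype ι] [Nonempty ι] (S : Finset G) (k : ℕ)
    (ψ : ι → G →+ ℤ) (ρ : ℕ), Wind S k → Funs S ψ ρ →
    ∀ N : ℕ, 1 ≤ N → ∀ R : ℕ, R = 4 * (2 * ρ + 1) * N → ∀ l : ℕ, 1 ≤ l →
    ∀ (ξ : ℕ → G → Err) (U : ℕ → Finset G),
    (∀ i v, v ∈ U i ↔ ∃ t, i * l ≤ t ∧ t < (i + 1) * l ∧ Seed S (ξ t) v) →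
    ∀ I : ℕ,
    (∀ (i : ℕ) (u : G) (A : Finset (ℕ × G)), i ≤ I →
      (∀ p ∈ A, i < p.1 + 2 * N ∧ p.1 ≤ i ∧ p.2 ∈ U p.1 ∧ p.2 ∈ ball ψ u R) → A.card < N) →
    (∀ (i j : ℕ), i ≤ I → j ≤ i → ∀ u ∈ U j, ∀ lo hi : ι → ℤ, box ψ lo hi ⊆ ball ψ u R →
      (∀ v ∈ U i, v ∉ box ψ lo hi) →
      evo S k (box ψ lo hi) (fun t => ξ (i * l + t)) (box ψ lo hi) l = ∅) →
    ∀ (i t : ℕ) (v : G), i ≤ I → i * l ≤ t → t ≤ (i + 1) * l →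
      v ∈ evo S k Set.univ ξ ∅ t →
      ∃ j, j ≤ i ∧ i ≤ j + 1 ∧ ∃ u ∈ U j, v ∈ ball ψ u R

/-- SPEED: finite speed of propagation. -/
def SPEED_S : Prop :=
  ∀ (G : Type) [AddCommGroup G] (ι : Type) [Fintype ι] (S : Finset G) (k : ℕ)
    (ψ : ι → G →+ ℤ) (ρ : ℕ), Funs S ψ ρ → ∀ (ξ ξ' : ℕ → G → Err) (v0 : G) (T : ℕ),
    (∀ t, ∀ w ∈ ball ψ v0 (ρ * T), ξ t w = ξ' t w) →
    ∀ t ≤ T, (v0 ∈ evo S k Set.univ ξ ∅ t ↔ v0 ∈ evo S k Set.univ ξ' ∅ t)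

/-- BALL: cardinality of balls. -/
def BALL_S : Prop :=
  ∀ (G : Type) [AddCommGroup G] (ι : Type) [Fintype ι] (ψ : ι → G →+ ℤ),
    (∀ v, (∀ i, ψ i v = 0) → v = 0) → ∀ (u : G) (R : ℕ),
    (ball ψ u R).Finite ∧ (ball ψ u R).ncard ≤ (2 * R + 1) ^ Fintype.card ι

/-- STAGES (section 3): the decomposition of a ball into lines. `D j` is the set that is left
after `j` lines have been removed, `z j` is the top of the next line. -/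
def STAGES_S : Prop :=
  ∀ (G : Type) [AddCommGroup G] (ι : Type) [Fintype ι] (S : Finset G) (k : ℕ)
    (ψ : ι → G →+ ℤ) (ρ : ℕ) (φ : G →+ ℤ) (g : G), Wind S k → Funs S ψ ρ → φ g = 0 → g ≠ 0 →
    (∃ s ∈ S, s ≠ 0 ∧ φ s = 0) → (∀ s ∈ S, φ s = 0 → ∃ j : ℤ, s = j • g) →
    ∀ (u : G) (R : ℕ), ∃ (M : ℕ) (D : ℕ → Set G) (z : ℕ → G),
      M ≤ (2 * R + 1) ^ Fintype.card ι ∧ D 0 = ball ψ u R ∧ D M = ∅ ∧
      (∀ j < M, D (j + 1) ⊆ D j ∧ (∀ w ∈ D j, φ w ≤ φ (z j)) ∧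
        (∀ w ∈ D j, w ∉ D (j + 1) → ∃ i : ℤ, -(2 * R + 1 : ℤ) < i ∧ i ≤ 0 ∧ w = z j + i • g) ∧
        (∀ w ∈ D (j + 1), ∀ i : ℤ, w ≠ z j + i • g)) ∧
      (∀ j ≤ M, ∀ lo hi : ι → ℤ, Robust S k (D j ∩ box ψ lo hi))

/-- RUN: a run of a machine with finitely many noise sites. `P` is the set of unfinished states,
`V` the Lyapunov function; from a start with `V ≤ V0` the run of `q * l0` steps is unfinished with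
probability at most `(1/2)^q`, if `2 * V0 / c ≤ l0` and `V ≤ V0` on all states. -/
def RUN_S.{u} : Prop :=
  ∀ (G : Type) (X : Type) (f : X → (G → Err) → X) (P : X → Prop) (V : X → ℝ) (Z : Finset G)
    (ε c V0 : ℝ), 0 < ε → ε ≤ 1 / 2 → 0 < c → (∀ x, 0 ≤ V x ∧ (P x → V x ≤ V0)) →
    (∀ x η η', (∀ w ∈ Z, η w = η' w) → f x η = f x η') →
    (∀ x η, ¬ P x → ¬ P (f x η)) →
    (∀ x, P x → Ex ε Z (fun η => V (f x η)) ≤ V x - c) →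
    ∀ (l0 q : ℕ), 2 * V0 / c ≤ l0 → ∀ x0 : X,
    ∀ (Ω : Type u) [MeasurableSpace Ω] (μ : Measure Ω) [IsProbabilityMeasure μ]
      (ξ : ℕ → G → Ω → Err), IsNoise μ ξ ε → ∀ t0 : ℕ,
      μ {ω | P (run f x0 (fun t v => ξ (t0 + t) v ω) (q * l0))} ≤ ENNReal.ofReal ((1 / 2) ^ q)

/-- EXSUB: the finite expectation of a local function does not depend on the window. -/
def EXSUB_S : Prop :=
  ∀ (G : Type) (ε : ℝ) (Z Z' : Finset G) (f : (G → Err) → ℝ), Z' ⊆ Z →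
    (∀ η η', (∀ w ∈ Z', η w = η' w) → f η = f η') → Ex ε Z f = Ex ε Z' f

/-- EXSHIFT: translation invariance of the finite expectation. -/
def EXSHIFT_S : Prop :=
  ∀ (G : Type) [AddCommGroup G] (ε : ℝ) (Z : Finset G) (z : G) (f : (G → Err) → ℝ),
    Ex ε (Z.map (addLeftEmbedding z)) (fun η => f (fun w => η (z + w))) = Ex ε Z f

/-- SLAB (section 3): extinction in a ball. -/
def SLAB_S.{u} : Prop :=
  ∀ (G : Type) [AddCommGroup G] (ι : Type) [Fintype ι] [Nonempty ι] (S : Finset G) (k : ℕ)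
    (ψ : ι → G →+ ℤ) (ρ : ℕ) (φ : G →+ ℤ) (g : G) (K : ℕ), Wind S k → Funs S ψ ρ → φ g = 0 →
    g ≠ 0 → (∃ s ∈ S, s ≠ 0 ∧ φ s = 0) → (∀ s ∈ S, φ s = 0 → ∃ j : ℤ, s = j • g) → 1 ≤ K →
    (∀ m : ℕ, 1 ≤ m → LineMachine S k φ g K m) →
    ∀ (R : ℕ) (ε : ℝ), 0 < ε → K * (2 * R + 1 : ℝ) ^ 2 * ε ≤ 1 → ε ≤ 1 / 2 →
    ∀ l0 : ℕ, 2 * K ^ 2 * (2 * R + 1 : ℝ) ^ (Fintype.card ι) * (2 * R + 1 : ℝ) ^ 2 / ε ≤ l0 →
    ∀ (q : ℕ) (u : G), ∃ Succ : (ℕ → G → Err) → Prop,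
      (∀ ξ ξ' : ℕ → G → Err, (∀ t, Le (ξ' t) (ξ t)) → Succ ξ → ∀ lo hi : ι → ℤ,
        box ψ lo hi ⊆ ball ψ u R →
        (∀ t < q * l0, ∀ v ∈ box ψ lo hi, ¬ Seed S (ξ' t) v) →
        evo S k (box ψ lo hi) ξ' (box ψ lo hi) (q * l0) = ∅) ∧
      (∀ (Ω : Type u) [MeasurableSpace Ω] (μ : Measure Ω) [IsProbabilityMeasure μ]
        (ξ : ℕ → G → Ω → Err), IsNoise μ ξ ε → ∀ t0 : ℕ,
        μ {ω | ¬ Succ (fun t v => ξ (t0 + t) v ω)} ≤ ENNReal.ofReal ((1 / 2) ^ q))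

/-- HEAVY: many seeds in a space-time block are improbable. -/
def HEAVY_S.{u} : Prop :=
  ∀ (G : Type) [AddCommGroup G] (ι : Type) [Fintype ι] (S : Finset G) (k : ℕ)
    (ψ : ι → G →+ ℤ) (ρ C : ℕ) (c : G → Fin C), Wind S k → Funs S ψ ρ → 1 ≤ C →
    (∀ v v', c v = c v' → v ≠ v' → ∀ s ∈ S, ∀ s' ∈ S, v + s ≠ v' + s') →
    ∀ (ε : ℝ), 0 < ε → ε ≤ 1 / 2 →
    ∀ (Ω : Type u) [MeasurableSpace Ω] (μ : Measure Ω) [IsProbabilityMeasure μ]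
      (ξ : ℕ → G → Ω → Err), IsNoise μ ξ ε →
    ∀ (R N q L t0 : ℕ) (u : G), C * q < N + C →
      μ {ω | ∃ A : Finset (ℕ × G), N ≤ A.card ∧ ∀ p ∈ A, t0 ≤ p.1 ∧ p.1 < t0 + L ∧
        p.2 ∈ ball ψ u R ∧ Seed S (fun v => ξ p.1 v ω) p.2} ≤
      ENNReal.ofReal (C * ((2 * R + 1 : ℝ) ^ (Fintype.card ι) * L * (2 * k + 1) ^ 2 * ε ^ 2) ^ q)

/-- ASYM: the choice of the parameters (`n = 2k+1`, `P = card ι`). -/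
def ASYM_S : Prop :=
  ∀ (P ρ K C n : ℕ), 1 ≤ ρ → 1 ≤ K → 1 ≤ C → 1 ≤ n →
    ∃ c : ℝ, 0 < c ∧ ∃ ε0 : ℝ, 0 < ε0 ∧ ε0 ≤ 1 / 2 ∧ ∀ ε : ℝ, 0 < ε → ε < ε0 →
    ∃ N q l0 q1 R l : ℕ, 1 ≤ N ∧ 1 ≤ q ∧ 1 ≤ l0 ∧ R = 4 * (2 * ρ + 1) * N ∧ l = q * l0 ∧
      K * (2 * R + 1 : ℝ) ^ 2 * ε ≤ 1 ∧
      2 * K ^ 2 * (2 * R + 1 : ℝ) ^ P * (2 * R + 1 : ℝ) ^ 2 / ε ≤ l0 ∧
      C * q1 < N + C ∧
      ∀ T : ℕ, (T : ℝ) ≤ Real.exp (ε ^ (-c)) →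
        ε + 2 * (l * ((2 * R + 1 : ℝ) ^ P * n ^ 2 * ε ^ 2)) +
          (T + 1) * (2 * (ρ * (T + 1) + R) + 1 : ℝ) ^ P *
            (C * ((2 * R + 1 : ℝ) ^ P * (2 * N * l) * n ^ 2 * ε ^ 2) ^ q1 + (1 / 2) ^ q) ≤
          Real.sqrt ε

/-- ZERO: the theorem for the start from all zeros, in the set formulation. -/
def ZERO_S.{u} : Prop :=
  ∀ (d : ℕ) (S : Finset (Site d)) (k : ℕ), Wind S k →
    ¬ Collinear ℝ {x : Fin d → ℝ | ∃ s ∈ S, x = fun i => (s i : ℝ)} →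
    ∃ c : ℝ, 0 < c ∧ ∃ ε0 : ℝ, 0 < ε0 ∧ ε0 ≤ 1 / 2 ∧ ∀ ε : ℝ, 0 < ε → ε < ε0 →
    ∀ (Ω : Type u) [MeasurableSpace Ω] (μ : Measure Ω) [IsProbabilityMeasure μ]
      (ξ : ℕ → Site d → Ω → Err), IsNoise μ ξ ε → ∀ t : ℕ, (t : ℝ) ≤ Real.exp (ε ^ (-c)) →
      ∀ v : Site d,
      μ {ω | v ∈ act (fun w => ξ t w ω) (evo S k Set.univ (fun t w => ξ t w ω) ∅ t)} ≤
        ENNReal.ofReal (Real.sqrt ε)

/-- MAIN: the final theorem. -/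
def MAIN_S.{u} : Prop :=
  ∀ (d : ℕ) (S : Finset (Site d)), (∀ s ∈ S, -s ∈ S) → Odd S.card →
    ¬ Collinear ℝ {x : Fin d → ℝ | ∃ s ∈ S, x = fun i => (s i : ℝ)} →
    ∃ c : ℝ, 0 < c ∧ ∃ ε0 : ℝ, 0 < ε0 ∧ ∀ ε : ℝ, 0 < ε → ε < ε0 →
    ∀ (Ω : Type u) [MeasurableSpace Ω] (μ : Measure Ω) [IsProbabilityMeasure μ]
      (ξ : ℕ → Site d → Ω → Err), IsNoise μ ξ ε → ∀ t : ℕ, (t : ℝ) ≤ Real.exp (ε ^ (-c)) →
      ∀ v : Site d,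
      μ {ω | traj S (fun t w => ξ t w ω) (fun _ => false) t v = true} ≤
        ENNReal.ofReal (Real.sqrt ε) ∧
      μ {ω | traj S (fun t w => ξ t w ω) (fun _ => true) t v = false} ≤
        ENNReal.ofReal (Real.sqrt ε)

end Pool.Agent.Lib.MP_fdcb14_pr
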